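import Pool.Agent.Q28.TM.Stm

set_option autoImplicit false

/-! Project TM (helper28), lemma jobs EXTF and EXT. -/

namespace Pool.Agent.Q102.TM

open Pool.Agent.Q28.TM Pool.Agent.Helper316

theorem t_EXTF : P_EXTF := by
  intro X A J _ T k e hk s t
  classical
  let Ft : Set (Fn T) := {f | ∀ j, e f j ≠ 0 → j ∈ t}
  have hFt : Ft.Finite := by
    haveI : ∀ j, NeZero (k j) := fun j => ⟨(hk j).ne'⟩
    have inj : Set.InjOn (fun (f : Fn T) (j : t) => e f j.1) Ft := by
      intro f hf g hg h
      apply e.injective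
      refine DFinsupp.ext fun j => ?_
      by_cases hj : j ∈ t
      · exact congrFun h ⟨j, hj⟩
      · have h1 : e f j = 0 := by
          by_contra hc
          exact hj (hf j hc)
        have h2 : e g j = 0 := by
          by_contra hc
          exact hj (hg j hc)
        rw [h1, h2]
    exact Set.Finite.of_finite_image (Set.toFinite _) inj
  haveI := hFt.to_subtype
  let φ : X → (s → Prop) × (Ft → A) := fun x => (fun a => a.1 ∈ T x, fun f => f.1.1 x)
  have hφ : (Set.range φ).Finite := by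
    refine Set.Finite.subset ((Set.toFinite (Set.univ : Set (s → Prop))).prod
      (Set.Finite.pi' (t := fun f : Ft => Set.range f.1.1) (fun f => f.1.2.2))) ?_
    rintro _ ⟨x, rfl⟩
    exact ⟨trivial, fun f => ⟨x, rfl⟩⟩
  obtain ⟨Y, hY⟩ := FCV.exists_finite_reps φ hφ
  refine ⟨Y, fun x => ?_⟩
  obtain ⟨x', hx', h⟩ := hY x
  refine ⟨x', hx', fun a ha => ?_, fun f hf => ?_⟩
  · have := congrFun (congrArg Prod.fst h) ⟨a, ha⟩
    exact (iff_of_eq this).symm
  · exact (congrFun (congrArg Prod.snd h) ⟨f, hf⟩).symm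

theorem t_EXT : P_EXT := by
  intro X A J _ T k e Y AE JE hYA hyp
  classical
  have hyp' : ∀ (i : Finset AE × Finset JE) (x : X), ∃ x' ∈ Y, (∀ a ∈ i.1, a.1 ∈ T x' → a.1 ∈ T x) ∧
      ∀ f : Fn T, (∀ j, e f j ≠ 0 → ∃ h : j ∈ JE, (⟨j, h⟩ : JE) ∈ i.2) → f.1 x' = f.1 x := by
    intro i x
    obtain ⟨x', h1, h2, h3⟩ := hyp (i.1.image Subtype.val) (i.2.image Subtype.val) (by
      intro a ha
      simp only [Finset.coe_image, Set.mem_image, Finset.mem_coe] at ha
      obtain ⟨b, _, rfl⟩ := ha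
      exact b.2) (by
      intro a ha
      simp only [Finset.coe_image, Set.mem_image, Finset.mem_coe] at ha
      obtain ⟨b, _, rfl⟩ := ha
      exact b.2) x
    refine ⟨x', h1, fun a ha => h2 a.1 (Finset.mem_image_of_mem _ ha), fun f hf => h3 f fun j hj => ?_⟩
    obtain ⟨h, hm⟩ := hf j hj
    exact Finset.mem_image.2 ⟨_, hm, rfl⟩
  choose c hcY hcA hcF using hyp'
  let U : Ultrafilter (Finset AE × Finset JE) := Ultrafilter.of Filter.atTop
  have hU : (U : Filter (Finset AE × Finset JE)) ≤ Filter.atTop := Ultrafilter.of_le _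
  have hval : ∀ (f : Dn T Y) (x : X), ∃ v ∈ f.1 '' Y, ∀ᶠ i in (U : Filter (Finset AE × Finset JE)), f.1 (c i x) = v := by
    intro f x
    have hmem : (⋃ v ∈ f.1 '' Y, {i | f.1 (c i x) = v}) ∈ U := by
      have : (⋃ v ∈ f.1 '' Y, {i | f.1 (c i x) = v}) = Set.univ := by
        rw [Set.eq_univ_iff_forall]
        intro i
        simp only [Set.mem_iUnion]
        exact ⟨f.1 (c i x), ⟨c i x, hcY i x, rfl⟩, rfl⟩
      rw [this]
      exact Filter.univ_mem
    rw [Ultrafilter.finite_biUnion_mem_iff f.2.2] at hmem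
    obtain ⟨v, h1, hv⟩ := hmem
    exact ⟨v, h1, hv⟩
  choose ev hev1 hev2 using hval
  have huniq : ∀ (f : Dn T Y) (x : X) (v : A), (∀ᶠ i in (U : Filter (Finset AE × Finset JE)), f.1 (c i x) = v) → ev f x = v := by
    intro f x v hv
    obtain ⟨i, h1, h2⟩ := (hv.and (hev2 f x)).exists
    rw [← h1, h2]
  have hmemT : ∀ (f : Dn T Y) (x : X), ev f x ∈ T x := by
    intro f x
    have hv : ev f x ∈ AE := by
      obtain ⟨i, hi⟩ := (hev2 f x).exists
      rw [← hi]
      exact hYA _ (hcY i x) _ (f.2.1 _ (hcY i x))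
    have h1 : ∀ᶠ i in (U : Filter (Finset AE × Finset JE)), (({⟨ev f x, hv⟩}, ∅) : Finset AE × Finset JE) ≤ i :=
      (Filter.eventually_ge_atTop _).filter_mono hU
    obtain ⟨i, hi1, hi2⟩ := (h1.and (hev2 f x)).exists
    have h2 := hcA i x ⟨ev f x, hv⟩ (hi1.1 (Finset.mem_singleton_self _))
    apply h2
    simp only
    rw [← hi2]
    exact f.2.1 _ (hcY i x)
  have hfin : ∀ f : Dn T Y, (Set.range (ev f)).Finite := by
    intro f
    refine f.2.2.subset ?_
    rintro _ ⟨x, rfl⟩
    exact hev1 f x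
  let E : Dn T Y →+ Fn T := AddMonoidHom.mk' (fun f => ⟨ev f, hmemT f, hfin f⟩) (by
    intro f g
    apply Subtype.ext
    funext x
    apply huniq
    filter_upwards [hev2 f x, hev2 g x] with i h1 h2
    change f.1 (c i x) + g.1 (c i x) = ev f x + ev g x
    rw [h1, h2])
  let P : Fn T →+ Fn T := e.symm.toAddMonoidHom.comp
    ((DFinsupp.filterAddMonoidHom (fun j => ZMod (k j)) (fun j => j ∈ JE)).comp e.toAddMonoidHom)
  have hP : ∀ (f : Fn T) (j : J), e (P f) j = if j ∈ JE then e f j else 0 := by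
    intro f j
    simp [P, DFinsupp.filter_apply]
  refine ⟨P.comp E, ?_, ?_⟩
  · intro f j hj
    by_contra hc
    apply hj
    change e (P (E f)) j = 0
    rw [hP, if_neg hc]
  · intro f g hf hg
    have h1 : E g = f := by
      apply Subtype.ext
      funext x
      apply huniq
      have h2 : ∀ᶠ i in (U : Filter (Finset AE × Finset JE)),
          ((∅, (e f).support.subtype (fun j => j ∈ JE)) : Finset AE × Finset JE) ≤ i :=
        (Filter.eventually_ge_atTop _).filter_mono hU
      filter_upwards [h2] with i hi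
      rw [hg _ (hcY i x)]
      apply hcF i x f
      intro j hj
      exact ⟨hf j hj, hi.2 (by simp [Finset.mem_subtype, hj])⟩
    change P (E g) = f
    rw [h1]
    apply e.injective
    refine DFinsupp.ext fun j => ?_
    rw [hP]
    split_ifs with h
    · rfl
    · by_contra hc
      exact h (hf j (Ne.symm hc))

end Pool.Agent.Q102.TM
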